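import Pool.Agent.H62.HE.Defs

/-!
# Larsen's question for hyperelliptic Jacobians (MP_6b5a9a_nt): module PHI
-/

open Polynomial

namespace Pool.Agent.H7.HE

open Pool.Agent.H62.HE

universe u

/-- degree bounds from the norm equation -/
theorem degree_bounds {k : Type u} [Field k] {g m : ℕ} {f a b q : k[X]}
    (hf : f.natDegree = 2 * g + 1) (hq : q.natDegree = m) (h : a ^ 2 - f * b ^ 2 = q) :
    2 * a.natDegree ≤ m ∧ (b = 0 ∨ 2 * g + 1 + 2 * b.natDegree ≤ m) := by
  have hf0 : f ≠ 0 := by
    rintro rfl
    simp at hf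
  by_cases hb : b = 0
  · subst hb
    have : a ^ 2 = q := by rw [← h]; ring
    refine ⟨?_, Or.inl rfl⟩
    rw [← hq, ← this, natDegree_pow]
  · have hfb : (f * b ^ 2).natDegree = 2 * g + 1 + 2 * b.natDegree := by
      rw [natDegree_mul hf0 (pow_ne_zero 2 hb), natDegree_pow, hf]
    by_cases ha : a = 0
    · subst ha
      have : -(f * b ^ 2) = q := by rw [← h]; ring
      have h2 : (f * b ^ 2).natDegree = m := by rw [← hq, ← this, natDegree_neg]
      refine ⟨by simp, Or.inr ?_⟩
      omega
    · have ha2 : (a ^ 2).natDegree = 2 * a.natDegree := natDegree_pow a 2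
      rcases Nat.lt_or_ge (a ^ 2).natDegree (f * b ^ 2).natDegree with hlt | hge
      · have := natDegree_sub_eq_right_of_natDegree_lt hlt
        rw [h, hq] at this
        exact ⟨by omega, Or.inr (by omega)⟩
      · have hgt : (f * b ^ 2).natDegree < (a ^ 2).natDegree := by omega
        have := natDegree_sub_eq_left_of_natDegree_lt hgt
        rw [h, hq] at this
        exact ⟨by omega, Or.inr (by omega)⟩

/-- a generic polynomial -/
noncomputable def gen {k : Type u} [Field k] {σ : Type} (D : ℕ) (v : Fin D → σ) :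
    (MvPolynomial σ k)[X] := ∑ i : Fin D, C (MvPolynomial.X (v i)) * X ^ (i : ℕ)

theorem gen_map {k : Type u} [Field k] {σ : Type} (D : ℕ) (v : Fin D → σ) (y : σ → k) (a : k[X])
    (ha : ∀ n, D ≤ n → a.coeff n = 0) (hy : ∀ i, y (v i) = a.coeff i) :
    (gen (k := k) D v).map (MvPolynomial.eval y) = a := by
  ext n
  unfold gen
  rw [Polynomial.map_sum, finsetSum_coeff]
  simp only [Polynomial.map_mul, map_C, Polynomial.map_pow, map_X, MvPolynomial.eval_X, coeff_C_mul,
    coeff_X_pow, hy, mul_ite, mul_one, mul_zero]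
  by_cases hn : n < D
  · rw [Finset.sum_eq_single (⟨n, hn⟩ : Fin D)]
    · simp
    · intro b _ hb
      rw [if_neg]
      intro h
      apply hb
      ext
      exact h.symm
    · intro h; exact absurd (Finset.mem_univ _) h
  · rw [ha n (not_lt.1 hn)]
    apply Finset.sum_eq_zero
    intro i _
    rw [if_neg]
    have := i.2
    omega

/-- **Module PHI.** -/
theorem PHI : T_PHI.{u} := by
  intro k _ _ ι _ _ g f hg hf
  classical
  set m : ℕ := Fintype.card ι with hm
  have hm1 : 1 ≤ m := Fintype.card_pos
  set D1 : ℕ := m / 2 + 1 with hD1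
  set D2 : ℕ := if 2 * g + 1 ≤ m then (m - (2 * g + 1)) / 2 + 1 else 0 with hD2
  have hD : D1 + D2 ≤ m := by
    rw [hD1, hD2]
    split_ifs <;> omega
  set σ : Type := Fin D1 ⊕ Fin D2 with hσ
  set Q : (MvPolynomial σ k)[X] := (gen D1 Sum.inl) ^ 2 -
    (f.map MvPolynomial.C) * (gen D2 Sum.inr) ^ 2 with hQ
  set e : Fin (m + 1) → MvPolynomial σ k := fun n => Q.coeff n with he
  -- algebraic dependence
  have hdep : ¬ AlgebraicIndependent k e := by
    intro hind
    have h1 := hind.lift_cardinalMk_le_trdeg
    rw [MvPolynomial.trdeg_of_isDomain] at h1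
    simp only [hσ, Cardinal.mk_fin, Cardinal.lift_natCast, Cardinal.mk_sum, Cardinal.lift_lift,
      Cardinal.lift_add] at h1
    have h2 : m + 1 ≤ D1 + D2 := by exact_mod_cast h1
    omega
  rw [algebraicIndependent_iff] at hdep
  push Not at hdep
  obtain ⟨Φ, hΦ, hΦ0⟩ := hdep
  -- a point
  obtain ⟨E, hE⟩ : ∃ E : Fin (m + 1) → k, MvPolynomial.eval E (Φ * MvPolynomial.X (Fin.last m)) ≠ 0 := by
    by_contra hcon
    push Not at hcon
    have : Φ * MvPolynomial.X (Fin.last m) = 0 := by
      apply MvPolynomial.funext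
      intro x
      rw [hcon x, map_zero]
    rcases mul_eq_zero.1 this with h | h
    · exact hΦ0 h
    · exact MvPolynomial.X_ne_zero _ h
  rw [map_mul, MvPolynomial.eval_X, mul_ne_zero_iff] at hE
  obtain ⟨hE1, hE2⟩ := hE
  set Em : k := E (Fin.last m) with hEm
  -- the polynomial
  set pE : k[X] := ∑ i : Fin (m + 1), C (E i) * X ^ (i : ℕ) with hpE
  have hcoef : ∀ i : Fin (m + 1), pE.coeff i = E i := by
    intro i
    rw [hpE, finsetSum_coeff]
    simp only [coeff_C_mul, coeff_X_pow, mul_ite, mul_one, mul_zero]
    rw [Finset.sum_eq_single i]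
    · simp
    · intro b _ hb
      rw [if_neg]
      intro h
      apply hb
      ext
      exact h.symm
    · intro h; exact absurd (Finset.mem_univ _) h
  have hcoef2 : ∀ n, m < n → pE.coeff n = 0 := by
    intro n hn
    rw [hpE, finsetSum_coeff]
    simp only [coeff_C_mul, coeff_X_pow, mul_ite, mul_one, mul_zero]
    apply Finset.sum_eq_zero
    intro i _
    rw [if_neg]
    have := i.2
    omega
  have hdeg : pE.natDegree = m := by
    apply le_antisymm
    · rw [natDegree_le_iff_coeff_eq_zero]
      exact hcoef2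
    · apply le_natDegree_of_ne_zero
      have := hcoef (Fin.last m)
      rw [Fin.val_last] at this
      rw [this]
      exact hE2
  have hlead : pE.leadingCoeff = Em := by
    have := hcoef (Fin.last m)
    rw [Fin.val_last] at this
    rw [leadingCoeff, hdeg, this]
  have hsplit : pE.Splits := IsAlgClosed.splits pE
  have hfac : pE = C Em * (pE.roots.map (fun a => X - C a)).prod := by
    rw [← hlead]
    exact hsplit.eq_prod_roots
  have hcard : pE.roots.card = m := by
    rw [← hdeg]
    exact (splits_iff_card_roots.1 hsplit)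
  obtain ⟨z, hz⟩ : ∃ z : ι → k, Finset.univ.val.map z = pE.roots := by
    have hlen : pE.roots.toList.length = m := by rw [Multiset.length_toList, hcard]
    have hei : Nonempty (ι ≃ Fin pE.roots.toList.length) := by
      rw [hlen, hm]
      exact ⟨Fintype.equivFin ι⟩
    obtain ⟨ei⟩ := hei
    refine ⟨fun i => pE.roots.toList.get (ei i), ?_⟩
    have h1 : (Finset.univ : Finset ι).val.map (fun i => pE.roots.toList.get (ei i)) =
        ((Finset.univ : Finset ι).val.map ei).map (fun j => pE.roots.toList.get j) := by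
      rw [Multiset.map_map]; rfl
    have h2 : (Finset.univ : Finset ι).val.map ei = (Finset.univ : Finset (Fin _)).val := by
      have := congrArg Finset.val (Finset.map_univ_equiv ei)
      simpa using this
    rw [h1, h2]
    have h3 : (Finset.univ : Finset (Fin pE.roots.toList.length)).val =
        ((List.finRange pE.roots.toList.length : List (Fin _)) : Multiset (Fin _)) := rfl
    rw [h3, Multiset.map_coe]
    have h4 : (List.finRange pE.roots.toList.length).map (fun j => pE.roots.toList.get j) =
        pE.roots.toList := by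
      exact List.map_get_finRange _
    rw [h4, Multiset.coe_toList]
  have hfac2 : pE = C Em * ∏ i, (X - C (z i)) := by
    rw [hfac]
    congr 1
    rw [← hz, Multiset.map_map]
    rfl
  -- the polynomial `P`
  set U : (MvPolynomial ι k)[X] := C (MvPolynomial.C Em) * ∏ i, (X - C (MvPolynomial.X i)) with hU
  have hUmap : ∀ x : ι → k, U.map (MvPolynomial.eval x) = C Em * ∏ i, (X - C (x i)) := by
    intro x
    rw [hU, Polynomial.map_mul, Polynomial.map_prod, map_C, MvPolynomial.eval_C]
    congr 1
    apply Finset.prod_congr rfl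
    intro i _
    rw [Polynomial.map_sub, map_X, map_C, MvPolynomial.eval_X]
  set P : MvPolynomial ι k := MvPolynomial.aeval (fun n : Fin (m + 1) => U.coeff n) Φ with hP
  have hPev : ∀ x : ι → k, MvPolynomial.eval x P =
      MvPolynomial.eval (fun n : Fin (m + 1) => (C Em * ∏ i, (X - C (x i)) : k[X]).coeff n) Φ := by
    intro x
    rw [hP, MvPolynomial.aeval_def, MvPolynomial.eval₂_eq_eval_map, MvPolynomial.eval_map]
    have : (MvPolynomial.eval x) (MvPolynomial.eval₂ (algebraMap k (MvPolynomial ι k))
        (fun n : Fin (m + 1) => U.coeff n) Φ) =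
        MvPolynomial.eval₂ ((MvPolynomial.eval x).comp (algebraMap k (MvPolynomial ι k)))
          ((MvPolynomial.eval x) ∘ (fun n : Fin (m + 1) => U.coeff n)) Φ := by
      rw [MvPolynomial.eval₂_comp_left]
    rw [this]
    have h2 : (MvPolynomial.eval x).comp (algebraMap k (MvPolynomial ι k)) = RingHom.id k := by
      ext c
      simp [MvPolynomial.algebraMap_eq]
    rw [h2, MvPolynomial.eval, MvPolynomial.coe_eval₂Hom]
    congr 1
    funext n
    rw [Function.comp_apply, ← hUmap x, coeff_map]
    rfl
  refine ⟨P, ?_, ?_⟩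
  · intro h0
    have h1 := hPev z
    rw [h0, map_zero, ← hfac2] at h1
    apply hE1
    rw [h1]
    congr 1
    congr 1
    funext n
    exact (hcoef n).symm
  · rintro x ⟨a, b, c, hc, hab⟩
    rw [hPev]
    obtain ⟨s, hs⟩ := IsAlgClosed.exists_pow_nat_eq (Em / c) (show 0 < 2 by norm_num)
    set a' := C s * a with ha'
    set b' := C s * b with hb'
    set q : k[X] := C Em * ∏ i, (X - C (x i)) with hq
    have hab' : a' ^ 2 - f * b' ^ 2 = q := by
      have e1 : a' ^ 2 - f * b' ^ 2 = C (s ^ 2) * (a ^ 2 - f * b ^ 2) := by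
        rw [ha', hb', C_pow]; ring
      rw [e1, hab, hs, ← mul_assoc, ← C_mul, div_mul_cancel₀ _ hc]
    have hqd : q.natDegree = m := by
      rw [hq, natDegree_C_mul hE2, natDegree_prod_of_monic _ _ (fun i _ => monic_X_sub_C (x i))]
      simp [hm]
    obtain ⟨b1, b2⟩ := degree_bounds hf hqd hab'
    -- the point
    set y : σ → k := Sum.elim (fun i => a'.coeff i) (fun i => b'.coeff i) with hy
    have hmapQ : Q.map (MvPolynomial.eval y) = q := by
      rw [← hab', hQ, Polynomial.map_sub, Polynomial.map_pow, Polynomial.map_mul,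
        Polynomial.map_pow, Polynomial.map_map]
      have e1 : (MvPolynomial.eval y).comp MvPolynomial.C = RingHom.id k := by
        ext c; simp
      rw [e1, Polynomial.map_id]
      rw [gen_map D1 Sum.inl y a' ?_ (fun i => rfl), gen_map D2 Sum.inr y b' ?_ (fun i => rfl)]
      · intro n hn
        rcases b2 with h | h
        · rw [h, coeff_zero]
        · apply coeff_eq_zero_of_natDegree_lt
          rw [hD2, if_pos (by omega)] at hn
          omega
      · intro n hn
        apply coeff_eq_zero_of_natDegree_lt
        omega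
    have hev : MvPolynomial.eval y (MvPolynomial.aeval e Φ) = 0 := by rw [hΦ, map_zero]
    have e3 : (MvPolynomial.eval y) (MvPolynomial.aeval e Φ) =
        MvPolynomial.eval₂ ((MvPolynomial.eval y).comp (algebraMap k (MvPolynomial σ k)))
          ((MvPolynomial.eval y) ∘ e) Φ := by
      rw [MvPolynomial.aeval_def, MvPolynomial.eval₂_comp_left]
    rw [e3] at hev
    have h2 : (MvPolynomial.eval y).comp (algebraMap k (MvPolynomial σ k)) = RingHom.id k := by
      ext c
      simp [MvPolynomial.algebraMap_eq]
    rw [h2] at hev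
    rw [MvPolynomial.eval, MvPolynomial.coe_eval₂Hom]
    rw [← hev]
    congr 1
    funext n
    rw [Function.comp_apply, he]
    simp only
    rw [← coeff_map, hmapQ]

end Pool.Agent.H7.HE
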